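import Pool.Agent.helper797_it.PG4
import Pool.Agent.helper797_it.PG6

/-!
# The intersection of the iterated `C*` is a model of ZF
-/

set_option autoImplicit false

namespace Pool.Agent.Results.MP_1d770b_lc.LimitIsZF

open Pool.Agent.W868 Pool.Agent.helper797_it

/-- Let `N` be a transitive model of ZFC: a set or an arbitrary class of sets, for instance the
universe of all sets (which satisfies `IsZFC`, first part). Let `C*0 = N` and let `C*(n+1)` be the
inner model `C*` computed in `C*n`. Then all `C*n` are transitive models of ZFC, they are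
decreasing, and their intersection `C*ω` is a transitive model of ZF. -/
theorem result : IsZFC (Set.univ : Set ZFSet.{0}) ∧
    ∀ N : Set ZFSet.{0}, IsZFC N →
      (∀ n, IsZFC (Cn N n) ∧ Cn N (n + 1) ⊆ Cn N n) ∧ IsZF (Cw N) :=
  ⟨isZFC_univ, fun _ hN => ⟨fun n => ⟨(cn_spec hN n).1, (cn_spec hN n).2.2.1⟩, isZF_Cw hN⟩⟩

end Pool.Agent.Results.MP_1d770b_lc.LimitIsZF
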